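import Pool.Agent.H29.RS.Targets
import Pool.Agent.H67.RT.KXE

/-!
# KXS: expansion of the right side, dilations at least one
-/

set_option autoImplicit false

open Complex MeasureTheory Filter Topology Set

namespace Pool.Agent.H42.RS

open Pool.Agent.H29.RS Pool.Agent.H29.RT Pool.Agent.H25.DP Pool.Agent.H25.DL

theorem pf_KXS (h : T_PHX) (h1 : Pool.Agent.H25.DL.T_CN) : T_KXS := by
  intro ι _ f Y d t₀ κ B η C β D hr hβ hD hD1 hY hκ hYb
  letI := Classical.decEq ι
  obtain ⟨C₁, T₁, hC₁, hT₁⟩ := h Y d t₀ κ B η C β hβ hY hκ hYb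
  obtain ⟨C₂, hC₂, hCN⟩ := h1 ι f 1 D hD one_pos hr
  have hg : 0 < (1 - D) / 2 := by linarith
  have hev : ∀ᶠ T : ℝ in atTop, C₁ * (C₂ * Real.log T ^ C₂) ≤ T ^ ((1 - D) / 2) := by
    have h1 := (isLittleO_log_rpow_rpow_atTop C₂ hg).def
      (c := 1 / (C₁ * C₂)) (by positivity)
    filter_upwards [h1, eventually_ge_atTop 1] with T hT hT1
    rw [Real.norm_of_nonneg (Real.rpow_nonneg (Real.log_nonneg hT1) _),
      Real.norm_of_nonneg (Real.rpow_nonneg (by linarith) _)] at hT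
    calc C₁ * (C₂ * Real.log T ^ C₂) = (C₁ * C₂) * Real.log T ^ C₂ := by ring
      _ ≤ (C₁ * C₂) * (1 / (C₁ * C₂) * T ^ ((1 - D) / 2)) :=
        mul_le_mul_of_nonneg_left hT (by positivity)
      _ = T ^ ((1 - D) / 2) := by field_simp
  have hev2 : ∀ᶠ T : ℝ in atTop, t₀ ≤ T - Real.log T := by
    have h2 := (Real.isLittleO_log_id_atTop).def (c := 1 / 2) (by norm_num)
    filter_upwards [h2, eventually_ge_atTop 1, eventually_ge_atTop (2 * t₀)] with T hT hT1 hT2
    rw [Real.norm_of_nonneg (Real.log_nonneg hT1), id, Real.norm_of_nonneg (by linarith)] at hT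
    linarith
  obtain ⟨T₂, hT₂⟩ := eventually_atTop.mp (hev.and hev2)
  refine ⟨max (max T₁ T₂) 3, fun T hT u hu ξ => ?_⟩
  have hTT₁ : T₁ ≤ T := le_trans (le_trans (le_max_left _ _) (le_max_left _ _)) hT
  have hTT₂ : T₂ ≤ T := le_trans (le_trans (le_max_right _ _) (le_max_left _ _)) hT
  have hT3 : 3 ≤ T := le_trans (le_max_right _ _) hT
  have hT0 : 0 < T := by linarith
  have hlog : 0 ≤ Real.log T := Real.log_nonneg (by linarith)
  obtain ⟨hcard, hprod⟩ := hCN T hT3
  obtain ⟨hb1, hb2⟩ := hT₂ T hTT₂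
  have hdis : ((mains f 1 D T : Finset (ι → ℕ)) : Set (ι → ℕ)).PairwiseDisjoint
      (fun j => Fintype.piFinset fun l => Finset.Ico (2 ^ j l) (2 ^ (j l + 1))) := by
    intro j _ j' _ hjj
    rw [Function.onFun, Finset.disjoint_left]
    intro z hz hz'
    apply hjj
    funext l
    rw [Fintype.mem_piFinset] at hz hz'
    have h1 := Finset.mem_Ico.1 (hz l)
    have h2 := Finset.mem_Ico.1 (hz' l)
    rw [← Nat.log_eq_of_pow_le_of_lt_pow h1.1 h1.2, ← Nat.log_eq_of_pow_le_of_lt_pow h2.1 h2.2]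
  set G : (ι → ℕ) → ℂ := fun z => κ *
    cexp ((d * u * Real.log u + B * u + η * Real.log u - u * lam f z : ℝ) * I) *
      (Real.exp (-(β ^ 2 * (d * Real.log u + d + B + η / u - lam f z - ξ) ^ 2 / 4)) : ℂ) with hG
  have hBR : κ * cexp ((d * u * Real.log u + B * u + η * Real.log u : ℝ) * I) *
      BR f β D T d B η ξ u =
      ∑ j ∈ mains f 1 D T,
        ∑ z ∈ Fintype.piFinset (fun l => Finset.Ico (2 ^ (j l)) (2 ^ (j l + 1))),
          co f z * G z := by
    unfold BR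
    have hTU : ∀ F : (ι → ℕ) → ℂ, ∑ z ∈ TU f D T, F z = ∑ j ∈ mains f 1 D T,
        ∑ z ∈ Fintype.piFinset (fun l => Finset.Ico (2 ^ (j l)) (2 ^ (j l + 1))), F z := by
      intro F
      unfold TU
      exact Finset.sum_biUnion hdis
    rw [Finset.mul_sum, hTU]
    refine Finset.sum_congr rfl fun j _ => Finset.sum_congr rfl fun z _ => ?_
    rw [hG]
    have h4 : cexp ((d * u * Real.log u + B * u + η * Real.log u : ℝ) * I) *
        cexp ((-(u * lam f z) : ℝ) * I) =
        cexp ((d * u * Real.log u + B * u + η * Real.log u - u * lam f z : ℝ) * I) := by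
      rw [← Complex.exp_add]
      congr 1
      push_cast
      ring
    show _ = co f z * (κ *
      cexp ((d * u * Real.log u + B * u + η * Real.log u - u * lam f z : ℝ) * I) * _)
    rw [← h4]
    ring
  rw [hBR, ← Finset.sum_sub_distrib]
  have hterm : ∀ j ∈ mains f 1 D T, ‖KX f Y β ξ (Real.log T) j u -
      ∑ z ∈ Fintype.piFinset (fun l => Finset.Ico (2 ^ (j l)) (2 ^ (j l + 1))),
        co f z * G z‖ ≤ T ^ (D / 2) * (C₁ / T) := by
    intro j hj
    rw [Pool.Agent.H67.RT.KX_eq f Y β ξ (Real.log T) u t₀ hlog (by linarith [hu.1]) hY.diff j,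
      ← Finset.sum_sub_distrib]
    have h1 : ∀ x : ι → ℕ, ‖co f x * (∫ y in (-Real.log T)..(Real.log T),
        cexp ((-((u + y) * lam f x) : ℝ) * I) * Y (1 / 2 + (u + y : ℝ) * I) * gx β ξ (y * I)) -
        co f x * G x‖ ≤ ‖co f x‖ * (C₁ / T) := by
      intro x
      rw [← mul_sub, norm_mul]
      exact mul_le_mul_of_nonneg_left (hT₁ T hTT₁ u hu (lam f x) ξ) (norm_nonneg _)
    refine (norm_sum_le _ _).trans ((Finset.sum_le_sum fun x _ => h1 x).trans ?_)
    rw [← Finset.sum_mul]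
    apply mul_le_mul_of_nonneg_right _ (by positivity)
    have h2 := Pool.Agent.H92.DL.coef_sum f j
    have h3 := hprod j hj
    rw [mul_one] at h3
    exact h2.trans h3
  refine (norm_sum_le _ _).trans ((Finset.sum_le_sum hterm).trans ?_)
  rw [Finset.sum_const, nsmul_eq_mul]
  have hL : 0 ≤ T ^ (D / 2) * (C₁ / T) := by positivity
  calc ((mains f 1 D T).card : ℝ) * (T ^ (D / 2) * (C₁ / T)) ≤
        (C₂ * Real.log T ^ C₂) * (T ^ (D / 2) * (C₁ / T)) := mul_le_mul_of_nonneg_right hcard hL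
    _ = (C₁ * (C₂ * Real.log T ^ C₂)) * (T ^ (D / 2) * T ^ (-1 : ℝ)) := by
        rw [Real.rpow_neg_one]
        ring
    _ ≤ T ^ ((1 - D) / 2) * (T ^ (D / 2) * T ^ (-1 : ℝ)) :=
        mul_le_mul_of_nonneg_right hb1 (by positivity)
    _ = T ^ (-(1 / 2) : ℝ) := by
        rw [← Real.rpow_add hT0, ← Real.rpow_add hT0]
        congr 1
        ring

end Pool.Agent.H42.RS
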